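import Mathlib

/-!
# External contextual grammars: SLT_2 selection versus ordered selection (MP_4db40a)

The language `{a,b,c}* ∪ d S d`, where `S` is the set of words over `{a,b,c}` without factors
`aa`, `bb`, `cc`, is generated with strictly locally 2-testable selection, but not with ordered
selection.
-/

set_option autoImplicit false

namespace Pool.Agent.Results.MP_4db40a_lc.NotOrdered

open Relation

/-- `w` is a word over the alphabet `U`. -/
def Over (U : Finset ℕ) (w : List ℕ) : Prop := ∀ x ∈ w, x ∈ U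

/-- Ordered languages with respect to `U`. -/
def Ordered (U : Finset ℕ) (L : Set (List ℕ)) : Prop :=
  (∀ w ∈ L, Over U w) ∧
  ∃ (Z : Type) (_ : Fintype Z) (_ : LinearOrder Z) (δ : Z → ℕ → Z) (z₀ : Z) (F : Set Z),
    (∀ x ∈ U, ∀ z z' : Z, z ≤ z' → δ z x ≤ δ z' x) ∧
    ∀ w : List ℕ, Over U w → (w ∈ L ↔ w.foldl δ z₀ ∈ F)

/-- Strictly locally `k`-testable languages with respect to `U`. -/
def SLT (k : ℕ) (U : Finset ℕ) (L : Set (List ℕ)) : Prop :=
  (∀ w ∈ L, Over U w) ∧
  ∃ B I E : Set (List ℕ), (∀ u, u ∈ B ∨ u ∈ I ∨ u ∈ E → u.length = k ∧ Over U u) ∧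
    ∀ w : List ℕ, Over U w → k ≤ w.length →
      (w ∈ L ↔ w.take k ∈ B ∧ w.drop (w.length - k) ∈ E ∧
        ∀ j, 1 ≤ j → j + k + 1 ≤ w.length → (w.drop j).take k ∈ I)

/-- A selection pair: alphabet `U`, selection language `S`, contexts `C`. -/
structure Sel where
  U : Finset ℕ
  S : Set (List ℕ)
  C : Finset (List ℕ × List ℕ)

/-- Contextual grammars with selection. -/
structure Grammar where
  V : Finset ℕ
  P : List Sel
  A : Finset (List ℕ)
  hA : ∀ w ∈ A, Over V w
  hU : ∀ p ∈ P, p.U ⊆ V
  hS : ∀ p ∈ P, ∀ w ∈ p.S, Over p.U w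
  hC : ∀ p ∈ P, ∀ c ∈ p.C, Over V c.1 ∧ Over V c.2

/-- External derivation step. -/
def Grammar.Step (G : Grammar) (x y : List ℕ) : Prop :=
  ∃ p ∈ G.P, ∃ c ∈ p.C, x ∈ p.S ∧ y = c.1 ++ x ++ c.2

/-- The generated language. -/
def Grammar.lang (G : Grammar) : Set (List ℕ) := {w | ∃ x ∈ G.A, ReflTransGen G.Step x w}

/-- The family `EC(𝔏)`; `Fam U S` says that `S` belongs to `𝔏` as a language over `U`. -/
def EC (Fam : Finset ℕ → Set (List ℕ) → Prop) : Set (Set (List ℕ)) :=
  {L | ∃ G : Grammar, (∀ p ∈ G.P, Fam p.U p.S) ∧ G.lang = L}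

/-! ## The language -/

/-- The alphabet `{a, b, c}`. -/
def U3 : Finset ℕ := {0, 1, 2}

/-- Words over `{a, b, c}` without two equal adjacent letters. -/
def Sq (w : List ℕ) : Prop := Over U3 w ∧ w.IsChain (· ≠ ·)

/-- The language `{a,b,c}* ∪ d S d`. -/
def L0 : Set (List ℕ) := {w | Over U3 w ∨ ∃ s, Sq s ∧ w = 3 :: (s ++ [3])}

theorem three_notMem : (3 : ℕ) ∉ U3 := by decide

theorem over_append (U : Finset ℕ) (u v : List ℕ) : Over U (u ++ v) ↔ Over U u ∧ Over U v := by
  unfold Over
  simp only [List.mem_append]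
  constructor
  · intro h
    exact ⟨fun x hx => h x (Or.inl hx), fun x hx => h x (Or.inr hx)⟩
  · rintro ⟨h1, h2⟩ x (hx | hx)
    · exact h1 x hx
    · exact h2 x hx

/-! ### The grammar with strictly locally testable selection -/

/-- all words over `{a,b,c}` -/
def selAll : Sel := ⟨U3, {w | Over U3 w}, {([], [0]), ([], [1]), ([], [2])}⟩

/-- square-free letters -/
def selSq : Sel := ⟨U3, {w | Sq w}, {([3], [3])}⟩

/-- the grammar -/
def G0 : Grammar where
  V := {0, 1, 2, 3}
  P := [selAll, selSq]
  A := {[]}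
  hA := by
    intro w hw
    simp only [Finset.mem_singleton] at hw
    subst hw
    intro x hx
    simp at hx
  hU := by
    intro p hp
    simp only [List.mem_cons, List.not_mem_nil, or_false] at hp
    rcases hp with rfl | rfl
    · simp only [selAll, U3]; decide
    · simp only [selSq, U3]; decide
  hS := by
    intro p hp w hw
    simp only [List.mem_cons, List.not_mem_nil, or_false] at hp
    rcases hp with rfl | rfl
    · exact hw
    · exact hw.1
  hC := by
    intro p hp c hc
    simp only [List.mem_cons, List.not_mem_nil, or_false] at hp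
    rcases hp with rfl | rfl
    · simp only [selAll, Finset.mem_insert, Finset.mem_singleton] at hc
      rcases hc with rfl | rfl | rfl <;>
      · constructor
        · intro x hx; simp at hx
        · intro x hx; simp at hx; subst hx; decide
    · simp only [selSq, Finset.mem_singleton] at hc
      subst hc
      constructor <;> intro x hx <;> simp at hx <;> subst hx <;> decide

theorem G0_lang : G0.lang = L0 := by
  ext w
  constructor
  · rintro ⟨x, hx, h⟩
    have hx' : x = [] := by simpa [G0] using hx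
    subst hx'
    induction h with
    | refl => exact Or.inl (fun x hx => by simp at hx)
    | tail _ hs _ =>
      obtain ⟨p, hp, c, hc, hxS, rfl⟩ := hs
      have hp' : p = selAll ∨ p = selSq := by simpa [G0] using hp
      rcases hp' with rfl | rfl
      · left
        have hc' : c = ([], [0]) ∨ c = ([], [1]) ∨ c = ([], [2]) := by simpa [selAll] using hc
        have hxS' : Over U3 _ := hxS
        rcases hc' with rfl | rfl | rfl
        · rw [List.nil_append, over_append]
          exact ⟨hxS', fun x hx => by simp at hx; subst hx; decide⟩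
        · rw [List.nil_append, over_append]
          exact ⟨hxS', fun x hx => by simp at hx; subst hx; decide⟩
        · rw [List.nil_append, over_append]
          exact ⟨hxS', fun x hx => by simp at hx; subst hx; decide⟩
      · right
        have hc' : c = ([3], [3]) := by simpa [selSq] using hc
        subst hc'
        exact ⟨_, hxS, by simp⟩
  · have hall : ∀ w, Over U3 w → w ∈ G0.lang := by
      intro w
      induction w using List.reverseRecOn with
      | nil => intro _; exact ⟨[], by simp [G0], ReflTransGen.refl⟩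
      | append_singleton w x ih =>
        intro hw
        rw [over_append] at hw
        obtain ⟨y, hy, h⟩ := ih hw.1
        refine ⟨y, hy, h.tail ?_⟩
        refine ⟨selAll, by simp [G0], ([], [x]), ?_, hw.1, by simp⟩
        have hx : x ∈ U3 := hw.2 x (by simp)
        simp only [U3, Finset.mem_insert, Finset.mem_singleton] at hx
        rcases hx with rfl | rfl | rfl <;> simp [selAll]
    rintro (h | ⟨s, hs, rfl⟩)
    · exact hall w h
    · obtain ⟨y, hy, h⟩ := hall s hs.1
      refine ⟨y, hy, h.tail ?_⟩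
      exact ⟨selSq, by simp [G0], ([3], [3]), by simp [selSq], hs, by simp⟩

theorem take_drop_two (w : List ℕ) (j : ℕ) (h : j + 1 < w.length) :
    (w.drop j).take 2 = [w[j], w[j + 1]] := by
  rw [List.drop_eq_getElem_cons (by omega : j < w.length),
    List.drop_eq_getElem_cons (by omega : j + 1 < w.length)]
  rfl

theorem slt_all : SLT 2 U3 {w | Over U3 w} := by
  refine ⟨fun w hw => hw, {u | u.length = 2 ∧ Over U3 u}, {u | u.length = 2 ∧ Over U3 u},
    {u | u.length = 2 ∧ Over U3 u}, ?_, ?_⟩
  · rintro u (h | h | h) <;> exact h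
  · intro w hw hlen
    have key : ∀ j, j + 1 < w.length → (w.drop j).take 2 ∈ {u : List ℕ | u.length = 2 ∧ Over U3 u} := by
      intro j hj
      rw [take_drop_two w j hj]
      refine ⟨rfl, fun x hx => ?_⟩
      simp only [List.mem_cons, List.not_mem_nil, or_false] at hx
      rcases hx with rfl | rfl <;> exact hw _ (List.getElem_mem _)
    constructor
    · intro _
      refine ⟨by simpa using key 0 (by omega), ?_, fun j _ hj => key j (by omega)⟩
      have h1 := key (w.length - 2) (by omega)
      rwa [List.take_of_length_le (by rw [List.length_drop]; omega)] at h1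
    · intro _
      exact hw

theorem slt_sq : SLT 2 U3 {w | Sq w} := by
  refine ⟨fun w hw => hw.1, {u | ∃ x y, u = [x, y] ∧ x ∈ U3 ∧ y ∈ U3 ∧ x ≠ y},
    {u | ∃ x y, u = [x, y] ∧ x ∈ U3 ∧ y ∈ U3 ∧ x ≠ y},
    {u | ∃ x y, u = [x, y] ∧ x ∈ U3 ∧ y ∈ U3 ∧ x ≠ y}, ?_, ?_⟩
  · have key : ∀ u : List ℕ, (∃ x y, u = [x, y] ∧ x ∈ U3 ∧ y ∈ U3 ∧ x ≠ y) →
        u.length = 2 ∧ Over U3 u := by
      rintro u ⟨x, y, rfl, hx, hy, _⟩
      refine ⟨rfl, fun z hz => ?_⟩
      simp only [List.mem_cons, List.not_mem_nil, or_false] at hz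
      rcases hz with rfl | rfl
      · exact hx
      · exact hy
    rintro u (h | h | h)
    · exact key u h
    · exact key u h
    · exact key u h
  · intro w hw hlen
    have key : ∀ j, (hj : j + 1 < w.length) →
        ((w.drop j).take 2 ∈ {u : List ℕ | ∃ x y, u = [x, y] ∧ x ∈ U3 ∧ y ∈ U3 ∧ x ≠ y} ↔
          w[j] ≠ w[j + 1]) := by
      intro j hj
      rw [take_drop_two w j hj]
      constructor
      · rintro ⟨x, y, he, _, _, hne⟩
        simp only [List.cons.injEq, and_true] at he
        rw [he.1, he.2]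
        exact hne
      · intro h
        exact ⟨_, _, rfl, hw _ (List.getElem_mem _), hw _ (List.getElem_mem _), h⟩
    have hchain : w.IsChain (· ≠ ·) ↔ ∀ j, (hj : j + 1 < w.length) → w[j] ≠ w[j + 1] := by
      rw [List.isChain_iff_getElem]
    have hE : w.drop (w.length - 2) = (w.drop (w.length - 2)).take 2 := by
      rw [List.take_of_length_le (by rw [List.length_drop]; omega)]
    constructor
    · rintro ⟨_, h⟩
      rw [hchain] at h
      refine ⟨by simpa using (key 0 (by omega)).2 (h 0 (by omega)), ?_,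
        fun j _ hj => (key j (by omega)).2 (h j (by omega))⟩
      rw [hE]
      exact (key (w.length - 2) (by omega)).2 (h (w.length - 2) (by omega))
    · rintro ⟨hB, hEnd, hI⟩
      refine ⟨hw, hchain.2 fun j hj => ?_⟩
      rcases Nat.eq_zero_or_pos j with h0 | h0
      · subst h0
        exact (key 0 hj).1 (by simpa using hB)
      · by_cases h1 : j + 2 + 1 ≤ w.length
        · exact (key j hj).1 (hI j h0 h1)
        · have h2 : j = w.length - 2 := by omega
          rw [hE] at hEnd
          subst h2
          exact (key (w.length - 2) hj).1 hEnd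

theorem L0_mem_slt : L0 ∈ EC (SLT 2) := by
  refine ⟨G0, ?_, G0_lang⟩
  intro p hp
  have hp' : p = selAll ∨ p = selSq := by simpa [G0] using hp
  rcases hp' with rfl | rfl
  · exact slt_all
  · exact slt_sq

/-! ## The main lemma on ordered automata -/

section main

variable {Z : Type} [Fintype Z] [LinearOrder Z] (δ : Z → ℕ → Z) (Live : Z → Prop)

/-- The state `q` behaves like the last letter `x`. -/
def Ty (x : ℕ) (q : Z) : Prop :=
  x ∈ U3 ∧ ∀ y, Over U3 y → (Live (y.foldl δ q) ↔ (x :: y).IsChain (· ≠ ·))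

variable {δ Live}

theorem Ty.next {x : ℕ} {q : Z} (h : Ty δ Live x q) {y : ℕ} (hy : y ∈ U3) (hxy : x ≠ y) :
    Ty δ Live y (δ q y) := by
  refine ⟨hy, fun z hz => ?_⟩
  have h1 := h.2 (y :: z) (by
    intro a ha
    rcases List.mem_cons.1 ha with rfl | ha
    · exact hy
    · exact hz a ha)
  rw [List.foldl_cons] at h1
  rw [h1, List.isChain_cons_cons]
  exact ⟨fun h => h.2, fun h => ⟨hxy, h⟩⟩

theorem Ty.run {x : ℕ} {q : Z} (h : Ty δ Live x q) (y : List ℕ) (hy : Over U3 y)
    (hc : (x :: y).IsChain (· ≠ ·)) : Ty δ Live ((x :: y).getLast (by simp)) (y.foldl δ q) := by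
  induction y generalizing x q with
  | nil => exact h
  | cons a y ih =>
    rw [List.isChain_cons_cons] at hc
    have ha : a ∈ U3 := hy a (by simp)
    have := ih (h.next ha hc.1) (fun b hb => hy b (by simp [hb])) hc.2
    rw [List.foldl_cons]
    rwa [List.getLast_cons (by simp)]

theorem Ty.unique {x x' : ℕ} {q : Z} (h : Ty δ Live x q) (h' : Ty δ Live x' q) : x = x' := by
  by_contra hne
  have hov : Over U3 [x'] := by
    intro a ha
    simp only [List.mem_cons, List.not_mem_nil, or_false] at ha
    rw [ha]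
    exact h'.1
  have h1 := (h.2 [x'] hov).2 (by simp [hne])
  have h2 := (h'.2 [x'] hov).1 h1
  simp at h2

theorem Ty.live {x : ℕ} {q : Z} (h : Ty δ Live x q) : Live q :=
  (h.2 [] (fun a ha => by simp at ha)).2 (by simp)

theorem Ty.dead {x : ℕ} {q : Z} (h : Ty δ Live x q) (y : List ℕ) (hy : Over U3 y) :
    ¬ Live ((x :: y).foldl δ q) := by
  intro hl
  have hov : Over U3 (x :: y) := by
    intro a ha
    rcases List.mem_cons.1 ha with rfl | ha
    · exact h.1
    · exact hy a ha
  have := (h.2 (x :: y) hov).1 hl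
  rw [List.isChain_cons_cons] at this
  exact this.1 rfl

/-- The set of states reachable in the admissible way. -/
def Orb (δ : Z → ℕ → Z) (x : ℕ) (q : Z) : Set Z :=
  {q' | ∃ y, Over U3 y ∧ (x :: y).IsChain (· ≠ ·) ∧ y.foldl δ q = q'}

theorem isChain_append_cons {x : ℕ} {y z : List ℕ} (h1 : (x :: y).IsChain (· ≠ ·))
    (h2 : ((x :: y).getLast (by simp) :: z).IsChain (· ≠ ·)) :
    (x :: (y ++ z)).IsChain (· ≠ ·) := by
  induction y generalizing x with
  | nil => exact h2
  | cons a y ih =>
    rw [List.cons_append, List.isChain_cons_cons]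
    rw [List.isChain_cons_cons] at h1
    rw [List.getLast_cons (by simp)] at h2
    exact ⟨h1.1, ih h1.2 h2⟩

theorem foldl_mono (hmono : ∀ x ∈ U3, ∀ z z' : Z, z ≤ z' → δ z x ≤ δ z' x) (y : List ℕ)
    (hy : Over U3 y) {z z' : Z} (h : z ≤ z') : y.foldl δ z ≤ y.foldl δ z' := by
  induction y generalizing z z' with
  | nil => exact h
  | cons a y ih =>
    exact ih (fun b hb => hy b (by simp [hb])) (hmono a (hy a (by simp)) _ _ h)

theorem over_cons {U : Finset ℕ} {x : ℕ} {y : List ℕ} : Over U (x :: y) ↔ x ∈ U ∧ Over U y := by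
  unfold Over
  simp

theorem no_ordered (hmono : ∀ x ∈ U3, ∀ z z' : Z, z ≤ z' → δ z x ≤ δ z' x)
    {x₀ : ℕ} {q₀ : Z} (h₀ : Ty δ Live x₀ q₀) : False := by
  classical
  -- a state with a minimal orbit
  have hne : ∃ n : ℕ, ∃ x q, Ty δ Live x q ∧ (Orb δ x q).ncard = n := ⟨_, x₀, q₀, h₀, rfl⟩
  obtain ⟨x, q, hq, hn⟩ := Nat.find_spec hne
  have hmin : ∀ x' q', Ty δ Live x' q' → (Orb δ x q).ncard ≤ (Orb δ x' q').ncard := by
    intro x' q' h'
    rw [hn]
    exact Nat.find_min' hne ⟨x', q', h', rfl⟩
  set T := Orb δ x q with hT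
  have hself : ∀ x' q', Ty δ Live x' q' → q' ∈ Orb δ x' q' := fun x' q' h' =>
    ⟨[], fun a ha => by simp at ha, by simp, rfl⟩
  have htyped : ∀ t ∈ T, ∃ y, Ty δ Live y t := by
    rintro t ⟨y, hy, hc, rfl⟩
    exact ⟨_, hq.run y hy hc⟩
  have hsub : ∀ t ∈ T, ∀ y, Ty δ Live y t → Orb δ y t = T := by
    intro t ht y hty
    have h1 : Orb δ y t ⊆ T := by
      rintro r ⟨z, hz, hcz, rfl⟩
      obtain ⟨v, hv, hcv, rfl⟩ := ht
      have e : y = (x :: v).getLast (by simp) := hty.unique (hq.run v hv hcv)
      refine ⟨v ++ z, (over_append _ _ _).2 ⟨hv, hz⟩, ?_, by rw [List.foldl_append]⟩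
      refine isChain_append_cons hcv ?_
      rw [← e]
      exact hcz
    exact Set.eq_of_subset_of_ncard_le h1 (hmin y t hty) (Set.toFinite _)
  have hconn : ∀ t ∈ T, ∀ y, Ty δ Live y t → ∀ t' ∈ T, ∃ z, Over U3 z ∧
      (y :: z).IsChain (· ≠ ·) ∧ z.foldl δ t = t' := by
    intro t ht y hty t' ht'
    rw [← hsub t ht y hty] at ht'
    exact ht'
  have hclosed : ∀ t ∈ T, ∀ y, Ty δ Live y t → ∀ z, Over U3 z → (y :: z).IsChain (· ≠ ·) →
      z.foldl δ t ∈ T := by
    intro t ht y hty z hz hc
    rw [← hsub t ht y hty]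
    exact ⟨z, hz, hc, rfl⟩
  have hTne : T.Nonempty := ⟨q, hself x q hq⟩
  have hTfin : T.Finite := Set.toFinite _
  -- minimum and maximum
  obtain ⟨m, hmT, hm⟩ := Set.exists_min_image T id hTfin hTne
  obtain ⟨M, hMT, hM⟩ := Set.exists_max_image T id hTfin hTne
  simp only [id] at hm hM
  obtain ⟨p, hp⟩ := htyped m hmT
  obtain ⟨r, hr⟩ := htyped M hMT
  -- synchronizing words
  let R : ℕ → List ℕ → Set Z := fun h w =>
    {t | t ∈ T ∧ (∃ y, Ty δ Live y t ∧ y ≠ h) ∧ (h :: w).foldl δ t = m}
  have hex : ∃ h w, Over U3 (h :: w) ∧ (h :: w).IsChain (· ≠ ·) ∧ m ∈ R h w := by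
    obtain ⟨y, hy, hpy⟩ : ∃ y ∈ U3, p ≠ y := by
      by_cases hp0 : p = 0
      · exact ⟨1, by decide, by omega⟩
      · exact ⟨0, by decide, hp0⟩
    have hn' := hp.next hy hpy
    have hmem : δ m y ∈ T := by
      have := hclosed m hmT p hp [y] (by
        intro a ha
        simp only [List.mem_cons, List.not_mem_nil, or_false] at ha
        rw [ha]; exact hy) (by simp [hpy])
      simpa using this
    obtain ⟨z, hz, hcz, hzm⟩ := hconn _ hmem y hn' m hmT
    refine ⟨y, z, over_cons.2 ⟨hy, hz⟩, hcz, hmT, ⟨p, hp, hpy⟩, ?_⟩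
    rw [List.foldl_cons]
    exact hzm
  have hbd : ∃ k : ℕ, ∃ h w, Over U3 (h :: w) ∧ (h :: w).IsChain (· ≠ ·) ∧ (R h w).Nonempty ∧
      Fintype.card Z - (R h w).ncard = k := by
    obtain ⟨h, w, h1, h2, h3⟩ := hex
    exact ⟨_, h, w, h1, h2, ⟨m, h3⟩, rfl⟩
  obtain ⟨h, w, hw1, hw2, hw3, hw4⟩ := Nat.find_spec hbd
  have hRcard : ∀ h w, (R h w).ncard ≤ Fintype.card Z := by
    intro h w
    rw [← Nat.card_eq_fintype_card]
    exact Set.ncard_le_card _
  have hmax : ∀ h' w', Over U3 (h' :: w') → (h' :: w').IsChain (· ≠ ·) → (R h' w').Nonempty →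
      (R h' w').ncard ≤ (R h w).ncard := by
    intro h' w' a1 a2 a3
    have := Nat.find_min' hbd ⟨h', w', a1, a2, a3, rfl⟩
    have b1 := hRcard h w
    have b2 := hRcard h' w'
    omega
  have hsync : ∀ t ∈ T, ∀ y, Ty δ Live y t → y ≠ h → (h :: w).foldl δ t = m := by
    intro t ht y hty hyh
    by_contra hcon
    obtain ⟨t0, ht0T, ⟨y0, hty0, hy0h⟩, ht0m⟩ := hw3
    have hc0 : (y0 :: h :: w).IsChain (· ≠ ·) := by
      rw [List.isChain_cons_cons]; exact ⟨hy0h, hw2⟩
    have hc1 : (y :: h :: w).IsChain (· ≠ ·) := by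
      rw [List.isChain_cons_cons]; exact ⟨hyh, hw2⟩
    have e0 := hty0.run (h :: w) hw1 hc0
    have e1 := hty.run (h :: w) hw1 hc1
    rw [List.getLast_cons (by simp)] at e0 e1
    rw [ht0m] at e0
    have hm1T := hclosed t ht y hty (h :: w) hw1 hc1
    obtain ⟨z, hz, hcz, hzm⟩ := hconn _ hm1T _ e1 m hmT
    have hcw : (h :: (w ++ z)).IsChain (· ≠ ·) := isChain_append_cons hw2 hcz
    have how : Over U3 (h :: (w ++ z)) := by
      rw [over_cons] at hw1 ⊢
      exact ⟨hw1.1, (over_append _ _ _).2 ⟨hw1.2, hz⟩⟩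
    have efold : ∀ s, (h :: (w ++ z)).foldl δ s = z.foldl δ ((h :: w).foldl δ s) := by
      intro s
      rw [← List.foldl_append]
      rfl
    have hmz : z.foldl δ m = m := by
      refine le_antisymm ?_ ?_
      · rw [← hzm]
        have := foldl_mono hmono z hz (hm _ hm1T)
        rw [hzm] at this ⊢
        exact this
      · exact hm _ (hclosed m hmT _ e0 z hz hcz)
    have hsubR : insert t (R h w) ⊆ R h (w ++ z) := by
      intro s hs
      rcases hs with rfl | ⟨hsT, hsy, hsm⟩
      · exact ⟨ht, ⟨y, hty, hyh⟩, by rw [efold]; exact hzm⟩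
      · exact ⟨hsT, hsy, by rw [efold, hsm]; exact hmz⟩
    have hnot : t ∉ R h w := fun hh => hcon hh.2.2
    have c1 := Set.ncard_le_ncard hsubR (Set.toFinite _)
    rw [Set.ncard_insert_of_notMem hnot (Set.toFinite _)] at c1
    have c2 := hmax h (w ++ z) how hcw ⟨t, hsubR (Set.mem_insert _ _)⟩
    omega
  -- a third letter
  obtain ⟨y, hy, hyp, hyr⟩ : ∃ y ∈ U3, p ≠ y ∧ r ≠ y := by
    have h1 := hp.1
    have h2 := hr.1
    simp only [U3, Finset.mem_insert, Finset.mem_singleton] at h1 h2
    rcases h1 with rfl | rfl | rfl <;> rcases h2 with rfl | rfl | rfl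
    · exact ⟨1, by decide, by omega, by omega⟩
    · exact ⟨2, by decide, by omega, by omega⟩
    · exact ⟨1, by decide, by omega, by omega⟩
    · exact ⟨2, by decide, by omega, by omega⟩
    · exact ⟨0, by decide, by omega, by omega⟩
    · exact ⟨0, by decide, by omega, by omega⟩
    · exact ⟨1, by decide, by omega, by omega⟩
    · exact ⟨0, by decide, by omega, by omega⟩
    · exact ⟨0, by decide, by omega, by omega⟩
  have hoy : Over U3 [y] := by
    intro a ha
    simp only [List.mem_cons, List.not_mem_nil, or_false] at ha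
    rw [ha]; exact hy
  have htT : δ m y ∈ T := by simpa using hclosed m hmT p hp [y] hoy (by simp [hyp])
  have hty := hp.next hy hyp
  set t := δ m y with ht
  by_cases hyh : y = h
  · -- the synchronizing word starts with `y`
    have a1 := hsync m hmT p hp (by rw [← hyh]; exact hyp)
    have a2 := hsync M hMT r hr (by rw [← hyh]; exact hyr)
    have b1 := foldl_mono hmono (h :: w) hw1 (hm t htT)
    have b2 := foldl_mono hmono (h :: w) hw1 (hM t htT)
    rw [a1] at b1
    rw [a2] at b2
    have e := le_antisymm b2 b1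
    have hd := hty.dead w (over_cons.1 hw1).2
    rw [hyh] at hd
    apply hd
    rw [e]
    exact hp.live
  · have hmyT := htT
    have hMyT : δ M y ∈ T := by simpa using hclosed M hMT r hr [y] hoy (by simp [hyr])
    have a1 := hsync (δ m y) hmyT y (hp.next hy hyp) hyh
    have a2 := hsync (δ M y) hMyT y (hr.next hy hyr) hyh
    have b1 := foldl_mono hmono (h :: w) hw1 (hmono y hy _ _ (hm t htT))
    have b2 := foldl_mono hmono (h :: w) hw1 (hmono y hy _ _ (hM t htT))
    rw [a1] at b1
    rw [a2] at b2
    have e := le_antisymm b2 b1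
    have hd := hty.dead (h :: w) hw1
    apply hd
    rw [List.foldl_cons, e]
    exact hp.live

end main

/-! ## The language is not generated with ordered selection -/

theorem sq_prefix {u v : List ℕ} (h : Sq (u ++ v)) : Sq u := by
  refine ⟨((over_append _ _ _).1 h.1).1, ?_⟩
  exact h.2.left_of_append

theorem sq_suffix {u v : List ℕ} (h : Sq (u ++ v)) : Sq v := by
  refine ⟨((over_append _ _ _).1 h.1).2, ?_⟩
  exact h.2.right_of_append

theorem sq_extend (w : List ℕ) (hw : Sq w) (n : ℕ) : ∃ z, Sq (w ++ z) ∧ z.length = n := by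
  induction n with
  | zero => exact ⟨[], by simpa using hw, rfl⟩
  | succ n ih =>
    obtain ⟨z, hz, hn⟩ := ih
    obtain ⟨a, ha, hne⟩ : ∃ a ∈ U3, ∀ b ∈ (w ++ z).getLast?, b ≠ a := by
      rcases h : (w ++ z).getLast? with _ | b
      · exact ⟨0, by decide, fun b hb => by simp at hb⟩
      · by_cases hb : b = 0
        · refine ⟨1, by decide, fun c hc => ?_⟩
          simp only [Option.mem_def, Option.some.injEq] at hc
          omega
        · refine ⟨0, by decide, fun c hc => ?_⟩
          simp only [Option.mem_def, Option.some.injEq] at hc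
          omega
    refine ⟨z ++ [a], ⟨?_, ?_⟩, by simp [hn]⟩
    · rw [← List.append_assoc, over_append]
      refine ⟨hz.1, fun x hx => ?_⟩
      simp only [List.mem_cons, List.not_mem_nil, or_false] at hx
      rw [hx]; exact ha
    · rw [← List.append_assoc, List.isChain_append]
      refine ⟨hz.2, by simp, ?_⟩
      intro x hx y hy
      simp only [List.head?_cons, Option.mem_def, Option.some.injEq] at hy
      rw [← hy]
      exact hne x hx

theorem last_step (G : Grammar) (w : List ℕ) (hw : w ∈ G.lang) : w ∈ G.A ∨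
    ∃ p ∈ G.P, ∃ c ∈ p.C, ∃ x ∈ G.lang, x ∈ p.S ∧ w = c.1 ++ x ++ c.2 ∧ x ≠ w := by
  obtain ⟨y, hy, h⟩ := hw
  induction h with
  | refl => exact Or.inl hy
  | @tail u v hu hs ih =>
    by_cases huv : u = v
    · subst huv; exact ih
    · right
      obtain ⟨p, hp, c, hc, hx, rfl⟩ := hs
      exact ⟨p, hp, c, hc, u, ⟨y, hy, hu⟩, hx, rfl, huv⟩

theorem not_over_three {u v : List ℕ} : ¬ Over U3 (u ++ 3 :: v) := fun h =>
  three_notMem (h 3 (by simp))

theorem L0_notMem_ordered : L0 ∉ EC Ordered := by
  rintro ⟨G, hG, hL⟩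
  classical
  -- a bound for the lengths of axioms and contexts
  obtain ⟨B, hB1, hB2⟩ : ∃ B : ℕ, (∀ w ∈ G.A, w.length ≤ B) ∧
      ∀ p ∈ G.P, ∀ c ∈ p.C, c.1.length + c.2.length ≤ B := by
    refine ⟨G.A.sup List.length + (G.P.map fun p => p.C.sup fun c => c.1.length + c.2.length).sum,
      fun w hw => ?_, fun p hp c hc => ?_⟩
    · exact le_trans (Finset.le_sup (f := List.length) hw) (Nat.le_add_right _ _)
    · have h1 : c.1.length + c.2.length ≤ p.C.sup fun c => c.1.length + c.2.length :=
        Finset.le_sup (f := fun c : List ℕ × List ℕ => c.1.length + c.2.length) hc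
      have h2 : (p.C.sup fun c => c.1.length + c.2.length) ≤
          (G.P.map fun p => p.C.sup fun c => c.1.length + c.2.length).sum :=
        List.single_le_sum (fun _ _ => Nat.zero_le _) _ (List.mem_map.2 ⟨p, hp, rfl⟩)
      omega
  -- the relevant pairs
  let D : Sel × List ℕ × List ℕ → Set (List ℕ) := fun j =>
    {s | ∃ x, Over U3 x ∧ x ∈ j.1.S ∧ s = j.2.1 ++ x ++ j.2.2}
  let Good : Sel × List ℕ × List ℕ → Prop := fun j =>
    j.1 ∈ G.P ∧ (3 :: j.2.1, j.2.2 ++ [3]) ∈ j.1.C
  have hC2 : ∀ j, Good j → ∀ x, Over U3 x → x ∈ j.1.S → Sq (j.2.1 ++ x ++ j.2.2) := by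
    rintro ⟨p, u, v⟩ ⟨hp, hc⟩ x hx hxS
    have h1 : x ∈ G.lang := by rw [hL]; exact Or.inl hx
    obtain ⟨y, hy, hyx⟩ := h1
    have h2 : (3 :: u) ++ x ++ (v ++ [3]) ∈ G.lang :=
      ⟨y, hy, hyx.tail ⟨p, hp, _, hc, hxS, rfl⟩⟩
    rw [hL] at h2
    rcases h2 with h2 | ⟨s, hs, h2⟩
    · exact absurd (h2 3 (by simp)) three_notMem
    · have e : u ++ x ++ v = s := by
        have h3 : 3 :: ((u ++ x ++ v) ++ [3]) = 3 :: (s ++ [3]) := by
          rw [← h2]; simp
        exact List.append_cancel_right (List.cons.inj h3).2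
      simp only
      rw [e]
      exact hs
  have hC1 : ∀ s, Sq s → B < s.length → ∃ j, Good j ∧ s ∈ D j := by
    intro s hs hlen
    have h1 : 3 :: (s ++ [3]) ∈ G.lang := by rw [hL]; exact Or.inr ⟨s, hs, rfl⟩
    rcases last_step G _ h1 with h1 | ⟨p, hp, c, hc, x, hx, hxS, he, hne⟩
    · have := hB1 _ h1
      simp at this
      omega
    · have hcB := hB2 p hp c hc
      have hxlen : 0 < x.length := by
        have := congrArg List.length he
        simp at this
        omega
      -- `x` has no letter 3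
      have hx3 : Over U3 x := by
        rw [hL] at hx
        rcases hx with hx | ⟨s', hs', rfl⟩
        · exact hx
        · exfalso
          obtain ⟨c1, c2⟩ := c
          simp only at he
          have h3s : (3 : ℕ) ∉ s := fun h => three_notMem (hs.1 3 h)
          cases c1 with
          | nil =>
            rw [List.nil_append, List.cons_append] at he
            have h4 := (List.cons.inj he).2
            rcases List.eq_nil_or_concat c2 with h5 | ⟨c2', l, h5⟩
            · subst h5
              apply hne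
              rw [he]
              simp
            · subst h5
              have h6 : s ++ [3] = (s' ++ [3] ++ c2') ++ [l] := by rw [h4]; simp
              have h7 := List.append_inj_left' h6 rfl
              apply h3s
              rw [h7]
              simp
          | cons a c1 =>
            have h4 := (List.cons.inj he).2
            have h5 : s ++ [3] = (c1 ++ 3 :: s') ++ (3 :: c2) := by
              rw [h4]; simp
            rcases List.eq_nil_or_concat c2 with h6 | ⟨c2', l, h6⟩
            · subst h6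
              have h7 := List.append_inj_left' h5 rfl
              apply h3s
              rw [h7]
              simp
            · subst h6
              have h7 : s ++ [3] = (c1 ++ 3 :: s' ++ 3 :: c2') ++ [l] := by rw [h5]; simp
              have h8 := List.append_inj_left' h7 rfl
              apply h3s
              rw [h8]
              simp
      obtain ⟨c1, c2⟩ := c
      simp only at he
      obtain ⟨x0, x', rfl⟩ := List.exists_cons_of_length_pos hxlen
      cases c1 with
      | nil =>
        rw [List.nil_append, List.cons_append] at he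
        have h4 := (List.cons.inj he).1
        exact absurd (hx3 x0 (by simp)) (by rw [← h4]; exact three_notMem)
      | cons a u =>
        rcases List.eq_nil_or_concat c2 with h5 | ⟨v, l, h5⟩
        · subst h5
          exfalso
          rcases List.eq_nil_or_concat (x0 :: x') with h6 | ⟨y, l, h6⟩
          · simp at h6
          · rw [h6] at he
            have h7 : (3 :: s) ++ [3] = (a :: u ++ y) ++ [l] := by
              rw [List.cons_append, he]; simp
            have h8 := List.append_inj_right' h7 rfl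
            have h9 : l = 3 := (List.cons.inj h8).1.symm
            exact three_notMem (hx3 3 (by rw [h6, h9]; simp))
        · subst h5
          have h6 := (List.cons.inj he).1
          have h7 := (List.cons.inj he).2
          have h8 : s ++ [3] = (u ++ (x0 :: x') ++ v) ++ [l] := by rw [h7]; simp
          have h9 := List.append_inj_left' h8 rfl
          have h10 : l = 3 := (List.cons.inj (List.append_inj_right' h8 rfl)).1.symm
          subst h10
          subst h6
          refine ⟨(p, u, v), ⟨hp, ?_⟩, x0 :: x', hx3, hxS, h9⟩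
          simpa using hc
  -- only finitely many pairs
  obtain ⟨J, hJ⟩ : ∃ J : List (Sel × List ℕ × List ℕ), ∀ j, Good j → j ∈ J := by
    refine ⟨G.P.flatMap fun p => p.C.toList.map fun c => (p, c.1.tail, c.2.dropLast), ?_⟩
    rintro ⟨p, u, v⟩ ⟨hp, hc⟩
    rw [List.mem_flatMap]
    refine ⟨p, hp, List.mem_map.2 ⟨_, Finset.mem_toList.2 hc, ?_⟩⟩
    simp
  -- a dense pair
  have hdense : ∃ j, Good j ∧ ∃ p, Sq p ∧ ∀ y, Sq (p ++ y) → ∃ z, p ++ y ++ z ∈ D j := by
    by_contra hcon
    push Not at hcon
    have key : ∀ J : List (Sel × List ℕ × List ℕ), ∀ p, Sq p → ∃ y, Sq (p ++ y) ∧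
        ∀ j ∈ J, Good j → ∀ z, p ++ y ++ z ∉ D j := by
      intro J
      induction J with
      | nil =>
        intro p hp
        exact ⟨[], by simpa using hp, fun j hj => by simp at hj⟩
      | cons j J ih =>
        intro p hp
        obtain ⟨y, hy, hyJ⟩ := ih p hp
        by_cases hj : Good j
        · obtain ⟨z, hz, hzn⟩ := hcon j hj (p ++ y) hy
          refine ⟨y ++ z, by rw [← List.append_assoc]; exact hz, ?_⟩
          intro i hi hgi w
          rcases List.mem_cons.1 hi with rfl | hi
          · have := hzn w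
            simpa using this
          · have := hyJ i hi hgi (z ++ w)
            simpa using this
        · refine ⟨y, hy, ?_⟩
          intro i hi hgi w
          rcases List.mem_cons.1 hi with rfl | hi
          · exact absurd hgi hj
          · exact hyJ i hi hgi w
    obtain ⟨y, hy, hyJ⟩ := key J [] ⟨fun a ha => by simp at ha, by simp⟩
    rw [List.nil_append] at hy
    obtain ⟨z, hz, hzl⟩ := sq_extend y hy (B + 1)
    obtain ⟨j, hj, hjD⟩ := hC1 (y ++ z) hz (by rw [List.length_append]; omega)
    exact hyJ j (hJ j hj) hj z (by simpa using hjD)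
  obtain ⟨⟨sel, u, v⟩, hgood, p₁, hp₁, hden₁⟩ := hdense
  -- make the prefix long
  obtain ⟨e, he, hel⟩ := sq_extend p₁ hp₁ (u.length + 1)
  set p := p₁ ++ e with hpdef
  have hden : ∀ y, Sq (p ++ y) → ∃ z, p ++ y ++ z ∈ D (sel, u, v) := by
    intro y hy
    obtain ⟨z, hz⟩ := hden₁ (e ++ y) (by rw [hpdef] at hy; simpa using hy)
    exact ⟨z, by rw [hpdef]; simpa using hz⟩
  have hplen : u.length < p.length := by
    rw [hpdef, List.length_append]; omega
  -- the prefix starts with `u`
  obtain ⟨p', hp'⟩ : ∃ p', p = u ++ p' := by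
    obtain ⟨z, x, _, _, hx⟩ := hden [] (by simpa using he)
    have hx' : p ++ z = u ++ (x ++ v) := by simpa using hx
    rw [List.append_eq_append_iff] at hx'
    rcases hx' with ⟨a, ha, _⟩ | ⟨a, ha, _⟩
    · have := congrArg List.length ha
      rw [List.length_append] at this
      omega
    · exact ⟨a, ha⟩
  have hp'ne : p' ≠ [] := by
    rintro rfl
    rw [hp'] at hplen
    simp at hplen
  have hsqp : Sq p := he
  have hsqp' : Sq p' := by
    rw [hp'] at hsqp
    exact sq_suffix hsqp
  -- liveness
  have hlive : ∀ y, Sq (p ++ y) → ∃ z, Over U3 z ∧ p' ++ y ++ z ∈ sel.S := by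
    intro y hy
    obtain ⟨y2, hy2, hy2l⟩ := sq_extend (p ++ y) hy v.length
    obtain ⟨z, x, hx1, hx2, hx3⟩ := hden (y ++ y2) (by rw [← List.append_assoc]; exact hy2)
    simp only at hx2 hx3
    have h1 : (p' ++ y) ++ (y2 ++ z) = x ++ v := by
      have : u ++ ((p' ++ y) ++ (y2 ++ z)) = u ++ (x ++ v) := by
        rw [hp'] at hx3
        simpa using hx3
      exact List.append_cancel_left this
    rw [List.append_eq_append_iff] at h1
    rcases h1 with ⟨a, ha1, ha2⟩ | ⟨a, ha1, ha2⟩
    · -- x = p' ++ y ++ a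
      refine ⟨a, ?_, ?_⟩
      · rw [ha1, over_append] at hx1
        exact hx1.2
      · rw [ha1] at hx2
        simpa using hx2
    · -- v = a ++ (y2 ++ z)
      have hl := congrArg List.length ha2
      rw [List.length_append, List.length_append] at hl
      have ha0 : a = [] := List.length_eq_zero_iff.1 (by omega)
      subst ha0
      rw [List.append_nil] at ha1
      refine ⟨[], fun b hb => by simp at hb, ?_⟩
      rw [List.append_nil, ha1]
      exact hx2
  have hdead : ∀ y z, Over U3 y → Over U3 z → p' ++ y ++ z ∈ sel.S → Sq (p ++ y) := by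
    intro y z hy hz h
    have h1 := hC2 (sel, u, v) hgood (p' ++ y ++ z)
      (by rw [over_append, over_append]; exact ⟨⟨hsqp'.1, hy⟩, hz⟩) h
    simp only at h1
    rw [hp']
    have h2 : u ++ (p' ++ y ++ z) ++ v = (u ++ p' ++ y) ++ (z ++ v) := by simp
    rw [h2] at h1
    exact sq_prefix h1
  -- the automaton
  obtain ⟨hover, Z, iF, iL, δ, z₀, F, hmono, hacc⟩ := hG sel hgood.1
  have hU : ∀ a ∈ U3, a ∈ sel.U := by
    intro a ha
    obtain ⟨y, hy, hay⟩ : ∃ y, Sq (p ++ y) ∧ a ∈ y := by
      by_cases h : ∀ b ∈ p.getLast?, b ≠ a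
      · refine ⟨[a], ⟨?_, ?_⟩, by simp⟩
        · rw [over_append]
          exact ⟨hsqp.1, fun x hx => by simp at hx; rw [hx]; exact ha⟩
        · rw [List.isChain_append]
          refine ⟨hsqp.2, by simp, ?_⟩
          intro x hx y hy
          simp only [List.head?_cons, Option.mem_def, Option.some.injEq] at hy
          rw [← hy]
          exact h x hx
      · push Not at h
        obtain ⟨b, hb, hba⟩ := h
        obtain ⟨c, hc, hca⟩ : ∃ c ∈ U3, c ≠ a := by
          by_cases h0 : a = 0
          · exact ⟨1, by decide, by omega⟩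
          · exact ⟨0, by decide, by omega⟩
        refine ⟨[c, a], ⟨?_, ?_⟩, by simp⟩
        · rw [over_append]
          refine ⟨hsqp.1, fun x hx => ?_⟩
          simp only [List.mem_cons, List.not_mem_nil, or_false] at hx
          rcases hx with rfl | rfl
          · exact hc
          · exact ha
        · rw [List.isChain_append]
          refine ⟨hsqp.2, by simp [hca], ?_⟩
          intro x hx y hy
          simp only [List.head?_cons, Option.mem_def, Option.some.injEq] at hy
          rw [← hy]
          have : x = b := by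
            simp only [Option.mem_def] at hx hb
            rw [hx] at hb
            exact Option.some.inj hb
          rw [this, hba]
          exact hca.symm
    obtain ⟨z, _, hz⟩ := hlive y hy
    exact hover _ hz a (by simp [hay])
  have hmono3 : ∀ x ∈ U3, ∀ z z' : Z, z ≤ z' → δ z x ≤ δ z' x := fun x hx => hmono x (hU x hx)
  have hoverU : ∀ w, Over U3 w → Over sel.U w := fun w hw x hx => hU x (hw x hx)
  let Live : Z → Prop := fun s => ∃ z, Over U3 z ∧ z.foldl δ s ∈ F
  have hlast : p.getLast? = p'.getLast? := by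
    rw [hp', List.getLast?_append_of_ne_nil _ hp'ne]
  obtain ⟨x₀, hx₀⟩ : ∃ x₀, p.getLast? = some x₀ := by
    rw [hlast]
    rcases h : p'.getLast? with _ | a
    · rw [List.getLast?_eq_none_iff] at h
      exact absurd h hp'ne
    · exact ⟨a, rfl⟩
  have hx₀U : x₀ ∈ U3 := hsqp.1 x₀ (List.mem_of_getLast? hx₀)
  have hTy : Ty δ Live x₀ (p'.foldl δ z₀) := by
    refine ⟨hx₀U, fun y hy => ?_⟩
    have hchain : (x₀ :: y).IsChain (· ≠ ·) ↔ Sq (p ++ y) := by
      unfold Sq
      rw [over_append, List.isChain_append, List.isChain_cons]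
      constructor
      · rintro ⟨h1, h2⟩
        refine ⟨⟨hsqp.1, hy⟩, hsqp.2, h2, ?_⟩
        intro a ha b hb
        have : a = x₀ := by
          simp only [Option.mem_def] at ha
          rw [hx₀] at ha
          exact (Option.some.inj ha).symm
        rw [this]
        exact h1 b hb
      · rintro ⟨_, _, h2, h3⟩
        exact ⟨fun b hb => h3 x₀ hx₀ b hb, h2⟩
    rw [hchain]
    constructor
    · rintro ⟨z, hz, hzF⟩
      refine hdead y z hy hz ?_
      rw [hacc]
      · rw [List.foldl_append, List.foldl_append]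
        exact hzF
      · refine hoverU _ ?_
        rw [over_append, over_append]
        exact ⟨⟨hsqp'.1, hy⟩, hz⟩
    · intro h
      obtain ⟨z, hz, hzS⟩ := hlive y h
      refine ⟨z, hz, ?_⟩
      rw [hacc] at hzS
      · rwa [List.foldl_append, List.foldl_append] at hzS
      · exact hover _ hzS
  exact no_ordered hmono3 hTy

/-- Main theorem. -/
theorem result : (EC (SLT 2) \ EC Ordered).Nonempty := ⟨L0, L0_mem_slt, L0_notMem_ordered⟩

end Pool.Agent.Results.MP_4db40a_lc.NotOrdered
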